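import Pool.Agent.Helper23_TS.Stmts

/-!
Approximations of all levels give an exact element: Artin-Rees applied to the pairs (element,
cofactor) with bounded poles and to their first coefficients at infinity.
-/

open Polynomial

namespace Pool.Agent.TS

open H12UBI H58UB

section
variable {A : Type} [CommRing A] {g : ℕ} {h r : A[X]}

theorem cl_smul (a : A) (z : CR A h r) : a • z = cst h r a * z := by
  refine QuadraticAlgebra.ext ?_ ?_
  · rw [QuadraticAlgebra.re_smul, QuadraticAlgebra.re_mul, cst_re, cst_im, smul_eq_C_mul]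
    ring
  · rw [QuadraticAlgebra.im_smul, QuadraticAlgebra.im_mul, cst_re, cst_im, smul_eq_C_mul]
    ring

theorem cl_e0yh (S : Shape g h r) : e0 S (yh h r) = ex A h + y0 S := by
  rw [e0_apply]
  change ex A h + ex A 1 * y0 S = _
  rw [map_one, one_mul]

theorem cl_ge_yh (S : Shape g h r) : Ge (-((g + 1 : ℕ) : ℤ)) (e0 S (yh h r)) := by
  rw [cl_e0yh]
  exact (ge_ex (le_of_eq S.deg)).add ((ge_y0 S).mono (by omega))

theorem cl_coeff_yh (S : Shape g h r) :
    (e0 S (yh h r)).coeff (-((g + 1 : ℕ) : ℤ)) = 1 := by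
  rw [cl_e0yh, HahnSeries.coeff_add, coeff_ex_neg, (ge_y0 S) _ (by omega), ← S.deg,
    coeff_natDegree, S.monic, add_zero]

/-- the cofactor without a pole at the first point: the element has a zero there -/
theorem cl_zero (S : Shape g h r) {c : A} {j : ℕ} {w s : CR A h r} (hp : Pr h r c j w s)
    (hs : Ge 0 (e0 S s)) : Ge (((g + 1) * j : ℕ) : ℤ) (e0 S w) := by
  have h1 : e0 S w * e0 S (yh h r) ^ j = HahnSeries.C (c ^ j) * e0 S s := by
    have := congrArg (e0 S) hp
    rw [map_mul, map_mul, map_pow, e0_cst] at this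
    exact this
  have h2 := ge_coeff_pow (cl_ge_yh S) j
  rw [cl_coeff_yh, one_pow] at h2
  have h3 := ge_of_mul (n := 0) ((cl_ge_yh S).pow j) (by rw [h2]; exact isUnit_one)
    (by rw [h1]; exact ge_C_mul hs _)
  refine h3.mono (le_of_eq ?_)
  push_cast
  ring

end

section
variable {V : Type} [CommRing V] [IsDomain V] [IsDiscreteValuationRing V] {g : ℕ} {h r : V[X]}

/-- pairs (element, cofactor) with bounded poles -/
noncomputable def clM (S : Shape g h r) (c : V) (j : ℕ) :
    Submodule V (CR V h r × CR V h r) where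
  carrier := {p | Pr h r c j p.1 p.2 ∧ Ge (-((3 * (g + 1) * j : ℕ) : ℤ)) (e0 S p.2) ∧
    Ge (-((2 * (g + 1) * j : ℕ) : ℤ)) (e1 S p.1)}
  add_mem' := by
    rintro p q ⟨hp1, hp2, hp3⟩ ⟨hq1, hq2, hq3⟩
    refine ⟨?_, ?_, ?_⟩
    · change (p.1 + q.1) * _ = _ * (p.2 + q.2)
      rw [add_mul, mul_add, hp1, hq1]
    · change Ge _ (e0 S (p.2 + q.2))
      rw [map_add]
      exact hp2.add hq2
    · change Ge _ (e1 S (p.1 + q.1))
      rw [map_add]
      exact hp3.add hq3
  zero_mem' := by
    refine ⟨?_, ?_, ?_⟩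
    · change (0 : CR V h r) * _ = _ * (0 : CR V h r)
      rw [zero_mul, mul_zero]
    · change Ge _ (e0 S (0 : CR V h r))
      rw [map_zero]
      intro i _
      rfl
    · change Ge _ (e1 S (0 : CR V h r))
      rw [map_zero]
      intro i _
      rfl
  smul_mem' := by
    rintro a p ⟨hp1, hp2, hp3⟩
    refine ⟨?_, ?_, ?_⟩
    · change (a • p.1) * _ = _ * (a • p.2)
      rw [cl_smul, cl_smul, mul_assoc, hp1]
      ring
    · change Ge _ (e0 S (a • p.2))
      rw [cl_smul, map_mul, e0_cst]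
      exact ge_C_mul hp2 a
    · change Ge _ (e1 S (a • p.1))
      rw [cl_smul, map_mul, e1_cst]
      exact ge_C_mul hp3 a

/-- the first coefficients -/
noncomputable def clP (S : Shape g h r) (c : V) (j : ℕ) :
    clM S c j →ₗ[V] ((Fin (3 * (g + 1) * j) ⊕ Fin ((g + 1) * j)) → V) where
  toFun p i := match i with
    | Sum.inl i => (e0 S p.1.2).coeff ((i : ℕ) - ((3 * (g + 1) * j : ℕ) : ℤ))
    | Sum.inr i => (e1 S p.1.1).coeff ((i : ℕ) - ((2 * (g + 1) * j : ℕ) : ℤ))
  map_add' := by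
    intro p q
    funext i
    rcases i with i | i
    · change (e0 S (p.1.2 + q.1.2)).coeff _ = _
      rw [map_add, HahnSeries.coeff_add]
      rfl
    · change (e1 S (p.1.1 + q.1.1)).coeff _ = _
      rw [map_add, HahnSeries.coeff_add]
      rfl
  map_smul' := by
    intro a p
    funext i
    rcases i with i | i
    · change (e0 S (a • p.1.2)).coeff _ = a * (e0 S p.1.2).coeff _
      rw [cl_smul, map_mul, e0_cst, coeff_C_mul']
    · change (e1 S (a • p.1.1)).coeff _ = a * (e1 S p.1.1).coeff _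
      rw [cl_smul, map_mul, e1_cst, coeff_C_mul']

theorem cl_core (S : Shape g h r) {c π : V} (hπ : Irreducible π) (hc : c ≠ 0) (j : ℕ)
    (hw : ∀ t, ∃ w s, LevJ S c π t j w s) : U S ((g + 1) * j) := by
  by_contra hU
  have hinj : Function.Injective (clP S c j) := by
    rw [injective_iff_map_eq_zero]
    rintro ⟨⟨w, s⟩, hp1, hp2, hp3⟩ hp
    have h0 : Ge 0 (e0 S s) := by
      intro i hi
      by_cases hi2 : i < -((3 * (g + 1) * j : ℕ) : ℤ)
      · exact hp2 i hi2
      · push Not at hi2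
        have h1 := congrFun hp (Sum.inl ⟨(i + ((3 * (g + 1) * j : ℕ) : ℤ)).toNat, by omega⟩)
        change (e0 S s).coeff (((i + ((3 * (g + 1) * j : ℕ) : ℤ)).toNat : ℕ) -
          ((3 * (g + 1) * j : ℕ) : ℤ)) = 0 at h1
        have h3 : ((((i + ((3 * (g + 1) * j : ℕ) : ℤ)).toNat : ℕ) : ℤ) -
          ((3 * (g + 1) * j : ℕ) : ℤ)) = i := by omega
        rw [h3] at h1
        exact h1
    have h1' : Ge (-(((g + 1) * j : ℕ) : ℤ)) (e1 S w) := by
      intro i hi
      by_cases hi2 : i < -((2 * (g + 1) * j : ℕ) : ℤ)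
      · exact hp3 i hi2
      · push Not at hi2
        have h23 : 2 * (g + 1) * j = (g + 1) * j + (g + 1) * j := by ring
        have h1 := congrFun hp (Sum.inr ⟨(i + ((2 * (g + 1) * j : ℕ) : ℤ)).toNat, by omega⟩)
        change (e1 S w).coeff (((i + ((2 * (g + 1) * j : ℕ) : ℤ)).toNat : ℕ) -
          ((2 * (g + 1) * j : ℕ) : ℤ)) = 0 at h1
        have h3 : ((((i + ((2 * (g + 1) * j : ℕ) : ℤ)).toNat : ℕ) : ℤ) -
          ((2 * (g + 1) * j : ℕ) : ℤ)) = i := by omega
        rw [h3] at h1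
        exact h1
    have hw0 : w = 0 := by
      by_contra hw0
      exact hU ⟨w, hw0, cl_zero S hp1 h0, h1'⟩
    have hs0 : s = 0 := by
      refine cst_mul_cancel (pow_ne_zero j hc) ?_
      have := hp1
      change w * yh h r ^ j = cst h r (c ^ j) * s at this
      rw [← this, hw0, zero_mul, mul_zero]
    subst hw0 hs0
    rfl
  obtain ⟨T, hT⟩ := exists_div π (clP S c j) hinj
  obtain ⟨w, s, hl⟩ := hw T
  obtain ⟨p', hp'⟩ := hT ⟨(w, s), hl.pr, hl.p0, hl.p1⟩ (by
    rintro (i | i)
    · exact hl.d0 _ (by have := i.2; omega)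
    · refine hl.d1 _ ?_
      have := i.2
      have h23 : 2 * (g + 1) * j = (g + 1) * j + (g + 1) * j := by ring
      omega)
  apply hl.ne
  have h1 : s = π • p'.1.2 := congrArg (fun x => x.1.2) hp'
  have hπ0 : (IsLocalRing.residue V) π = 0 := (residue_eq_zero_iff' hπ π).2 dvd_rfl
  rw [h1, QuadraticAlgebra.re_smul, smul_eq_C_mul]
  change Polynomial.map (IsLocalRing.residue V) (C π * p'.1.2.re) = 0
  rw [Polynomial.map_mul, Polynomial.map_C, hπ0, map_zero, zero_mul]

end

theorem cl : ClStmt := by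
  intro V _ _ _ g h r ρ c π hd S j hw
  exact cl_core S hd.irr hd.c0 j hw

end Pool.Agent.TS
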